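import Mathlib

set_option autoImplicit false

/-!
# MP_1b13b2_co: Nim with a single pass, positions with two disjoint groups of nim-sum one

Numerically the P-positions `(h; 1)` look irregular, but the irregularity disappears as soon as the
heaps contain two disjoint groups of nim-sum one: then `(h; 1)` is a P-position if and only if the
nim-sum of all the heaps is `1`.

The proof is by induction on the size of the position.
* nim-sum `0`: the pass wins (there is a nonempty heap).
* nim-sum at least `2`: the remaining heaps have the same nim-sum, so one of them can be reduced so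
  that their nim-sum becomes `1`; both groups are untouched.
* nim-sum `1`: the pass loses. A move in the remaining heaps leads to another nim-sum, with both groups
  untouched. A move in one of the two groups changes its nim-sum from `1` to some `y` different from `1`.
  If `y = 0` then the total nim-sum is `0` and the pass wins for the next player, the other group being
  nonempty. If `y` is at least `2`, the next player can restore the nim-sum `1` inside of the same group.
-/

namespace Pool.Agent.Results.MP_1b13b2_co.TwoUnitSubsets

/-- A position `(h_1, ..., h_n; ε)` of Nim with a single pass: the heaps and whether the pass is still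
available. -/
structure Position (n : ℕ) where
  heaps : Fin n → ℕ
  pass : Bool

/-- The moves: a Nim move (one heap is replaced by a smaller one), or the pass, which is allowed only if
it is still available and at least one heap is nonempty, and which makes it unavailable. -/
def Move {n : ℕ} (p q : Position n) : Prop :=
  (∃ (i : Fin n) (k : ℕ), k < p.heaps i ∧ q = ⟨Function.update p.heaps i k, p.pass⟩) ∨
    (p.pass = true ∧ (∃ i, p.heaps i ≠ 0) ∧ q = ⟨p.heaps, false⟩)

/-- The size of a position, which every move reduces. -/
def size {n : ℕ} (p : Position n) : ℕ := (∑ i, p.heaps i) + (if p.pass then 1 else 0)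

theorem sum_update_lt {n : ℕ} (h : Fin n → ℕ) (i : Fin n) (k : ℕ) (hk : k < h i) :
    ∑ j, Function.update h i k j < ∑ j, h j := by
  apply Finset.sum_lt_sum
  · intro j _
    by_cases hj : j = i
    · subst hj
      simp [hk.le]
    · simp [Function.update_of_ne hj]
  · exact ⟨i, Finset.mem_univ i, by simpa using hk⟩

theorem size_lt {n : ℕ} {p q : Position n} (h : Move p q) : size q < size p := by
  rcases h with ⟨i, k, hk, rfl⟩ | ⟨hp, -, rfl⟩
  · have := sum_update_lt p.heaps i k hk
    simp only [size]
    omega
  · simp [size, hp]

/-- The P-positions (normal play): the positions from which no move leads to a P-position. -/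
def IsP {n : ℕ} (p : Position n) : Prop :=
  ∀ q, (h : Move p q) → ¬ IsP q
termination_by size p
decreasing_by exact size_lt h

/-- The nim-sum of the heaps `h i`, `i ∈ A`. -/
def nimSum {n : ℕ} (A : Finset (Fin n)) (h : Fin n → ℕ) : ℕ :=
  A.fold (fun a b => a ^^^ b) 0 h

theorem nimSum_empty {n : ℕ} (h : Fin n → ℕ) : nimSum ∅ h = 0 := by
  simp [nimSum]

theorem nimSum_insert {n : ℕ} {A : Finset (Fin n)} {i : Fin n} (hi : i ∉ A) (h : Fin n → ℕ) :
    nimSum (insert i A) h = h i ^^^ nimSum A h := by
  simp [nimSum, Finset.fold_insert hi]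

theorem nimSum_congr {n : ℕ} {A : Finset (Fin n)} {h g : Fin n → ℕ} (H : ∀ i ∈ A, h i = g i) :
    nimSum A h = nimSum A g := by
  exact Finset.fold_congr H

theorem nimSum_union {n : ℕ} {A B : Finset (Fin n)} (hd : Disjoint A B) (h : Fin n → ℕ) :
    nimSum (A ∪ B) h = nimSum A h ^^^ nimSum B h := by
  induction A using Finset.induction_on with
  | empty => simp [nimSum_empty]
  | insert i A hi ih =>
    rw [Finset.disjoint_insert_left] at hd
    rw [Finset.insert_union, nimSum_insert (by simp [hi, hd.1]), ih hd.2, nimSum_insert hi,
      Nat.xor_assoc]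

theorem nimSum_update_not_mem {n : ℕ} {A : Finset (Fin n)} {i : Fin n} (hi : i ∉ A) (h : Fin n → ℕ)
    (k : ℕ) : nimSum A (Function.update h i k) = nimSum A h := by
  apply nimSum_congr
  intro j hj
  rw [Function.update_of_ne]
  rintro rfl
  exact hi hj

theorem nimSum_update_ne {n : ℕ} {A : Finset (Fin n)} {i : Fin n} (hi : i ∈ A) (h : Fin n → ℕ)
    (k : ℕ) (hk : k ≠ h i) : nimSum A (Function.update h i k) ≠ nimSum A h := by
  intro H
  rw [← Finset.insert_erase hi, nimSum_insert (Finset.notMem_erase i A),
    nimSum_insert (Finset.notMem_erase i A), nimSum_update_not_mem (Finset.notMem_erase i A)] at H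
  rw [Function.update_self] at H
  have H2 := congrArg (fun z => z ^^^ nimSum (A.erase i) h) H
  simp only [Nat.xor_assoc, Nat.xor_self, Nat.xor_zero] at H2
  exact hk H2

/-- Bouton's lemma: every smaller value of the nim-sum of a group of heaps is reached by a move in the
group. -/
theorem exists_move {n : ℕ} (A : Finset (Fin n)) (h : Fin n → ℕ) :
    ∀ t, t < nimSum A h → ∃ i ∈ A, ∃ k, k < h i ∧ nimSum A (Function.update h i k) = t := by
  induction A using Finset.induction_on with
  | empty =>
    intro t ht
    simp [nimSum_empty] at ht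
  | insert j A hj ih =>
    intro t ht
    rw [nimSum_insert hj] at ht
    rcases Nat.lt_xor_cases ht with h1 | h1
    · refine ⟨j, Finset.mem_insert_self j A, t ^^^ nimSum A h, h1, ?_⟩
      rw [nimSum_insert hj, nimSum_update_not_mem hj, Function.update_self, Nat.xor_assoc,
        Nat.xor_self, Nat.xor_zero]
    · obtain ⟨i, hi, k, hk, he⟩ := ih _ h1
      refine ⟨i, Finset.mem_insert_of_mem hi, k, hk, ?_⟩
      have hne : j ≠ i := by
        rintro rfl
        exact hj hi
      rw [nimSum_insert hj, he, Function.update_of_ne hne, Nat.xor_comm t, ← Nat.xor_assoc,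
        Nat.xor_self, Nat.zero_xor]

theorem isP_iff {n : ℕ} (p : Position n) : IsP p ↔ ∀ q, Move p q → ¬ IsP q := by
  rw [IsP]

theorem eq_zero_of_nimSum {n : ℕ} {A : Finset (Fin n)} {h : Fin n → ℕ} (H : nimSum A h ≠ 0) :
    ∃ i ∈ A, h i ≠ 0 := by
  obtain ⟨i, hi, k, hk, -⟩ := exists_move A h 0 (Nat.pos_of_ne_zero H)
  exact ⟨i, hi, by omega⟩

/-- Bouton's theorem: after the pass has been used, the P-positions are those of nim-sum `0`. -/
theorem isP_nopass {n : ℕ} : ∀ (N : ℕ) (h : Fin n → ℕ), ∑ i, h i = N →
    (IsP (⟨h, false⟩ : Position n) ↔ nimSum Finset.univ h = 0) := by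
  intro N
  induction N using Nat.strong_induction_on with
  | _ N ih =>
    intro h hN
    rw [isP_iff]
    constructor
    · intro H
      by_contra hne
      obtain ⟨i, hi, k, hk, he⟩ := exists_move Finset.univ h 0 (Nat.pos_of_ne_zero hne)
      refine H ⟨Function.update h i k, false⟩ (Or.inl ⟨i, k, hk, rfl⟩) ?_
      exact (ih _ (hN ▸ sum_update_lt h i k hk) _ rfl).mpr he
    · rintro H q (⟨i, k, hk, rfl⟩ | ⟨hp, -, -⟩)
      · intro hq
        have h1 := (ih _ (hN ▸ sum_update_lt h i k hk) _ rfl).mp hq
        exact nimSum_update_ne (Finset.mem_univ i) h k hk.ne (h1.trans H.symm)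
      · simp at hp

theorem isP_false_iff {n : ℕ} (h : Fin n → ℕ) :
    IsP (⟨h, false⟩ : Position n) ↔ nimSum Finset.univ h = 0 :=
  isP_nopass _ h rfl

/-- With the pass available, a position with a nonempty heap and nim-sum `0` is not a P-position. -/
theorem not_isP_of_zero {n : ℕ} (h : Fin n → ℕ) (h0 : nimSum Finset.univ h = 0)
    (hne : ∃ i, h i ≠ 0) : ¬ IsP (⟨h, true⟩ : Position n) := by
  intro H
  rw [isP_iff] at H
  exact H ⟨h, false⟩ (Or.inr ⟨rfl, hne, rfl⟩) ((isP_false_iff h).mpr h0)

theorem nimSum_univ {n : ℕ} (A B : Finset (Fin n)) (hd : Disjoint A B) (h : Fin n → ℕ) :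
    nimSum Finset.univ h = (nimSum A h ^^^ nimSum B h) ^^^ nimSum (A ∪ B)ᶜ h := by
  rw [← nimSum_union hd, ← nimSum_union disjoint_compl_right, Finset.union_compl]

theorem main {n : ℕ} : ∀ (N : ℕ) (h : Fin n → ℕ) (A B : Finset (Fin n)), ∑ i, h i = N →
    Disjoint A B → nimSum A h = 1 → nimSum B h = 1 →
    (IsP (⟨h, true⟩ : Position n) ↔ nimSum Finset.univ h = 1) := by
  intro N
  induction N using Nat.strong_induction_on with
  | _ N ih =>
    intro h A B hN hd hA hB
    have htot : nimSum Finset.univ h = nimSum (A ∪ B)ᶜ h := by
      rw [nimSum_univ A B hd, hA, hB, Nat.xor_self, Nat.zero_xor]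
    have hnonempty : ∃ i, h i ≠ 0 := by
      obtain ⟨i, -, hi⟩ := eq_zero_of_nimSum (A := A) (h := h) (by rw [hA]; exact one_ne_zero)
      exact ⟨i, hi⟩
    -- a move in one of the two groups, the total nim-sum being one, does not lead to a P-position
    have key : ∀ (A B : Finset (Fin n)), Disjoint A B → nimSum A h = 1 → nimSum B h = 1 →
        nimSum Finset.univ h = 1 → ∀ i ∈ A, ∀ k < h i,
        ¬ IsP (⟨Function.update h i k, true⟩ : Position n) := by
      intro A B hd hA hB hx i hi k hk
      set g := Function.update h i k with hg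
      have hiB : i ∉ B := Finset.disjoint_left.mp hd hi
      have hiC : i ∉ (A ∪ B)ᶜ := by simp [hi]
      have hB' : nimSum B g = 1 := by rw [hg, nimSum_update_not_mem hiB, hB]
      have htot' : nimSum (A ∪ B)ᶜ h = 1 := by
        rw [← hx, nimSum_univ A B hd, hA, hB, Nat.xor_self, Nat.zero_xor]
      have hC' : nimSum (A ∪ B)ᶜ g = 1 := by rw [hg, nimSum_update_not_mem hiC, htot']
      have hA' : nimSum A g ≠ 1 := by
        rw [← hA]
        exact nimSum_update_ne hi h k hk.ne
      have htotg : nimSum Finset.univ g = nimSum A g := by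
        rw [nimSum_univ A B hd, hB', hC', Nat.xor_assoc, Nat.xor_self, Nat.xor_zero]
      rcases Nat.eq_zero_or_pos (nimSum A g) with h0 | hpos
      · refine not_isP_of_zero g (by rw [htotg, h0]) ?_
        obtain ⟨j, -, hj⟩ := eq_zero_of_nimSum (A := B) (h := g) (by rw [hB']; exact one_ne_zero)
        exact ⟨j, hj⟩
      · obtain ⟨j, hj, l, hl, he⟩ := exists_move A g 1 (by omega)
        have hjB : j ∉ B := Finset.disjoint_left.mp hd hj
        have hjC : j ∉ (A ∪ B)ᶜ := by simp [hj]
        have hlt : ∑ m, Function.update g j l m < N := by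
          have h1 := sum_update_lt g j l hl
          have h2 := sum_update_lt h i k hk
          rw [← hg] at h2
          omega
        have hB'' : nimSum B (Function.update g j l) = 1 := by
          rw [nimSum_update_not_mem hjB, hB']
        have hP : IsP (⟨Function.update g j l, true⟩ : Position n) := by
          rw [ih _ hlt _ A B rfl hd he hB'', nimSum_univ A B hd, he, hB'',
            nimSum_update_not_mem hjC, hC']
          decide
        intro H
        rw [isP_iff] at H
        exact H _ (Or.inl ⟨j, l, hl, rfl⟩) hP
    constructor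
    · intro H
      by_contra hne
      rcases Nat.eq_zero_or_pos (nimSum Finset.univ h) with h0 | hpos
      · exact not_isP_of_zero h h0 hnonempty H
      · obtain ⟨i, hi, k, hk, he⟩ := exists_move (A ∪ B)ᶜ h 1 (by omega)
        have hiA : i ∉ A := by
          intro h'
          simp [h'] at hi
        have hiB : i ∉ B := by
          intro h'
          simp [h'] at hi
        rw [isP_iff] at H
        refine H ⟨Function.update h i k, true⟩ (Or.inl ⟨i, k, hk, rfl⟩) ?_
        have hA' : nimSum A (Function.update h i k) = 1 := by
          rw [nimSum_update_not_mem hiA, hA]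
        have hB' : nimSum B (Function.update h i k) = 1 := by
          rw [nimSum_update_not_mem hiB, hB]
        rw [ih _ (hN ▸ sum_update_lt h i k hk) _ A B rfl hd hA' hB', nimSum_univ A B hd, hA', hB',
          he]
        decide
    · intro hx
      rw [isP_iff]
      rintro q (⟨i, k, hk, rfl⟩ | ⟨-, -, rfl⟩)
      · dsimp only at hk ⊢
        by_cases hiA : i ∈ A
        · exact key A B hd hA hB hx i hiA k hk
        by_cases hiB : i ∈ B
        · exact key B A hd.symm hB hA hx i hiB k hk
        have hA' : nimSum A (Function.update h i k) = 1 := by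
          rw [nimSum_update_not_mem hiA, hA]
        have hB' : nimSum B (Function.update h i k) = 1 := by
          rw [nimSum_update_not_mem hiB, hB]
        rw [ih _ (hN ▸ sum_update_lt h i k hk) _ A B rfl hd hA' hB', ← hx]
        exact nimSum_update_ne (Finset.mem_univ i) h k hk.ne
      · rw [isP_false_iff]
        dsimp only
        omega

/-- **Nim with a single pass**: if the heaps of `h` contain two disjoint groups of nim-sum `1`, then
`(h; 1)` is a P-position if and only if the nim-sum of all the heaps is `1`. -/
theorem result {n : ℕ} (h : Fin n → ℕ) (A B : Finset (Fin n)) (hAB : Disjoint A B)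
    (hA : nimSum A h = 1) (hB : nimSum B h = 1) :
    IsP (⟨h, true⟩ : Position n) ↔ nimSum Finset.univ h = 1 :=
  main _ h A B rfl hAB hA hB

end Pool.Agent.Results.MP_1b13b2_co.TwoUnitSubsets
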